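import Pool.Agent.Helper65.GDST.Q1

set_option autoImplicit false

open Cardinal Ordinal Set Pool.Agent.Helper65.GDST

universe u

namespace Pool.Agent.Results.MP_f4bae3_lc.BorelLimitClosure

/-- For every uncountable regular `κ` with `2^{<κ} = κ` and all subspaces `X`, `Y` of the
generalized Baire space, the `κ⁺`-Borel measurable functions `X → Y` form the smallest class
containing the continuous functions and closed under `μ`-limits for all regular `μ ≤ κ`. -/
theorem result (κ : Cardinal.{u}) (hκ : GoodCardinal κ) (X Y : Set (GB κ)) :
    BorMeas κ X Y = LimClosure κ X Y :=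
  borMeas_eq_limClosure hκ X Y

end Pool.Agent.Results.MP_f4bae3_lc.BorelLimitClosure
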