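import Pool.Agent.Helper65.GDST.Q2Neg

set_option autoImplicit false

open Cardinal Ordinal Set Pool.Agent.Helper65.GDST

universe u

namespace Pool.Agent.Results.MP_f4bae3_lc.HatLimitFails

/-- Let `ξ < κ⁺` be a limit ordinal of cofinality less than `κ`. The class on the right-hand side
of the proposed equality is always `M_ξ(X, Y)`; and for `X` the whole generalized Baire space and
`Y` with at least two points it does not contain `M_{ξ+1}(X, Y)`. -/
theorem result (κ : Cardinal.{u}) (hκ : GoodCardinal κ) (ξ : Ordinal.{u})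
    (hξ : Order.IsSuccLimit ξ) (hξκ : ξ < (Order.succ κ).ord) (hcof : ξ.cof < κ) :
    (∀ X Y : Set (GB κ), LimOf κ (HatLimOf κ ξ ξ.cof (MeasLT κ X Y ξ)) = Meas κ X Y ξ) ∧
    ∀ Y : Set (GB κ), Y.Nontrivial →
      ¬ Meas κ (Set.univ : Set (GB κ)) Y (Order.succ ξ) ⊆
        LimOf κ (HatLimOf κ ξ ξ.cof (MeasLT κ (Set.univ : Set (GB κ)) Y ξ)) :=
  ⟨fun X Y => limOf_hatLim_eq hκ ξ hξ hcof X Y,
    fun Y hY => not_meas_succ_subset hκ ξ hξ hξκ hcof Y hY⟩

end Pool.Agent.Results.MP_f4bae3_lc.HatLimitFails
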