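import Pool.Agent.Helper65.GDST.Weak

set_option autoImplicit false

open Cardinal Ordinal Set Pool.Agent.Helper65.GDST

universe u

namespace Pool.Agent.Results.MP_f4bae3_lc.IteratedLimit

/-- Let `ξ` be a limit ordinal of cofinality less than `κ`. Every `Σ⁰_{ξ+1}`-measurable
function `X → Y` is a `κ`-limit of `cof(ξ)`-limits of functions from `M_{<ξ}(X, Y)`. -/
theorem result (κ : Cardinal.{u}) (hκ : GoodCardinal κ) (ξ : Ordinal.{u})
    (hξ : Order.IsSuccLimit ξ) (hcof : ξ.cof < κ) (X Y : Set (GB κ)) :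
    Meas κ X Y (Order.succ ξ) ⊆ LimOf κ (LimOf ξ.cof (MeasLT κ X Y ξ)) :=
  meas_succ_subset hκ X Y ξ hξ hcof

end Pool.Agent.Results.MP_f4bae3_lc.IteratedLimit
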